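import Mathlib

/-!
# Binomial coefficients: the sampling weights of the levels
-/

set_option autoImplicit false

namespace Pool.Agent.X248.RS

open Finset

/-- the middle binomial coefficient -/
def g (n : ℕ) : ℕ := n.choose (n / 2)

theorem g_even (k : ℕ) : g (2 * k) = k.centralBinom := by
  unfold g
  rw [Nat.mul_div_cancel_left k (by norm_num), Nat.centralBinom]

theorem two_g_odd (k : ℕ) : 2 * g (2 * k + 1) = (k + 1).centralBinom := by
  unfold g
  have h1 : (2 * k + 1) / 2 = k := by omega
  rw [h1, Nat.centralBinom, show 2 * (k + 1) = 2 * k + 1 + 1 by ring, Nat.choose_succ_succ]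
  have h2 : (2 * k + 1).choose k = (2 * k + 1).choose (k.succ) := by
    rw [← Nat.choose_symm_of_eq_add (show 2 * k + 1 = k.succ + k by omega)]
  omega

theorem central_upper (k : ℕ) : k.centralBinom ^ 2 * (2 * k + 1) ≤ 16 ^ k := by
  induction k with
  | zero => simp
  | succ k ih =>
    have h := Nat.succ_mul_centralBinom_succ k
    have h2 : ((k + 1) * (k + 1).centralBinom) ^ 2 = 4 * (2 * k + 1) ^ 2 * k.centralBinom ^ 2 := by
      rw [h]; ring
    have h3 : (k + 1) ^ 2 * ((k + 1).centralBinom ^ 2 * (2 * (k + 1) + 1)) ≤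
        (k + 1) ^ 2 * 16 ^ (k + 1) := by
      calc (k + 1) ^ 2 * ((k + 1).centralBinom ^ 2 * (2 * (k + 1) + 1))
          = ((k + 1) * (k + 1).centralBinom) ^ 2 * (2 * k + 3) := by ring
        _ = (k.centralBinom ^ 2 * (2 * k + 1)) * (4 * (2 * k + 1) * (2 * k + 3)) := by
            rw [h2]; ring
        _ ≤ 16 ^ k * (4 * (2 * k + 1) * (2 * k + 3)) := Nat.mul_le_mul_right _ ih
        _ ≤ 16 ^ k * (16 * (k + 1) ^ 2) := Nat.mul_le_mul_left _ (by nlinarith)
        _ = (k + 1) ^ 2 * 16 ^ (k + 1) := by ring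
    exact Nat.le_of_mul_le_mul_left h3 (by positivity)

theorem central_lower (k : ℕ) : 16 ^ (k + 1) ≤ (k + 1).centralBinom ^ 2 * (4 * (k + 1)) := by
  induction k with
  | zero => simp [Nat.centralBinom]
  | succ k ih =>
    have h := Nat.succ_mul_centralBinom_succ (k + 1)
    have h2 : ((k + 1 + 1) * (k + 1 + 1).centralBinom) ^ 2 =
        4 * (2 * (k + 1) + 1) ^ 2 * (k + 1).centralBinom ^ 2 := by
      rw [h]; ring
    have h3 : (k + 2) * ((k + 1) * 16 ^ (k + 2)) ≤
        (k + 2) * ((k + 1) * ((k + 2).centralBinom ^ 2 * (4 * (k + 2)))) := by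
      calc (k + 2) * ((k + 1) * 16 ^ (k + 2)) = 16 ^ (k + 1) * (16 * (k + 1) * (k + 2)) := by ring
        _ ≤ ((k + 1).centralBinom ^ 2 * (4 * (k + 1))) * (16 * (k + 1) * (k + 2)) :=
            Nat.mul_le_mul_right _ ih
        _ ≤ ((k + 1).centralBinom ^ 2 * (4 * (k + 1))) * (4 * (2 * (k + 1) + 1) ^ 2) :=
            Nat.mul_le_mul_left _ (by nlinarith)
        _ = (4 * (2 * (k + 1) + 1) ^ 2 * (k + 1).centralBinom ^ 2) * (4 * (k + 1)) := by ring
        _ = ((k + 1 + 1) * (k + 1 + 1).centralBinom) ^ 2 * (4 * (k + 1)) := by rw [h2]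
        _ = _ := by ring
    exact Nat.le_of_mul_le_mul_left (Nat.le_of_mul_le_mul_left h3 (by positivity)) (by positivity)

theorem g_upper (n : ℕ) : g n ^ 2 * (n + 1) ≤ 4 ^ n := by
  rcases Nat.even_or_odd' n with ⟨k, rfl | rfl⟩
  · rw [g_even, pow_mul]
    exact central_upper k
  · have h := central_upper (k + 1)
    rw [← two_g_odd] at h
    have : 4 * (g (2 * k + 1) ^ 2 * (2 * k + 1 + 1)) ≤ 4 * 4 ^ (2 * k + 1) := by
      calc 4 * (g (2 * k + 1) ^ 2 * (2 * k + 1 + 1)) ≤
          (2 * g (2 * k + 1)) ^ 2 * (2 * (k + 1) + 1) := by nlinarith [sq_nonneg (g (2 * k + 1))]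
        _ ≤ 16 ^ (k + 1) := h
        _ = 4 * 4 ^ (2 * k + 1) := by
            rw [show (16 : ℕ) = 4 ^ 2 by norm_num, ← pow_mul, ← pow_succ']
            congr 1
    omega

theorem g_lower (n : ℕ) : 4 ^ n ≤ 2 * (n + 1) * g n ^ 2 := by
  rcases Nat.even_or_odd' n with ⟨k, rfl | rfl⟩
  · rcases k with _ | k
    · simp [g]
    · rw [g_even, pow_mul]
      have h := central_lower k
      calc (4 ^ 2) ^ (k + 1) = 16 ^ (k + 1) := by norm_num
        _ ≤ (k + 1).centralBinom ^ 2 * (4 * (k + 1)) := h
        _ ≤ _ := by nlinarith [sq_nonneg ((k + 1).centralBinom)]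
  · have h := central_lower k
    rw [← two_g_odd] at h
    have : 4 * 4 ^ (2 * k + 1) ≤ 4 * (2 * (2 * k + 1 + 1) * g (2 * k + 1) ^ 2) := by
      calc 4 * 4 ^ (2 * k + 1) = 16 ^ (k + 1) := by
            rw [show (16 : ℕ) = 4 ^ 2 by norm_num, ← pow_mul, ← pow_succ']
            congr 1
        _ ≤ (2 * g (2 * k + 1)) ^ 2 * (4 * (k + 1)) := h
        _ = _ := by ring
    omega

/-- ordered disjoint pairs of sets -/
theorem choose_swap (X u v : ℕ) :
    X.choose u * (X - u).choose v = X.choose v * (X - v).choose u := by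
  by_cases h : u + v ≤ X
  · have h1 := Nat.choose_mul (n := X) (k := u + v) (s := u) (by omega)
    have h2 := Nat.choose_mul (n := X) (k := u + v) (s := v) (by omega)
    rw [show u + v - u = v by omega] at h1
    rw [show u + v - v = u by omega] at h2
    have h3 : (u + v).choose u = (u + v).choose v := by
      rw [← Nat.choose_symm_of_eq_add (show u + v = v + u by ring)]
    rw [← h1, ← h2, h3]
  · by_cases hu : X < u
    · rw [Nat.choose_eq_zero_of_lt hu]
      by_cases hv : X < v
      · rw [Nat.choose_eq_zero_of_lt hv]; simp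
      · rw [Nat.choose_eq_zero_of_lt (show X - v < u by omega)]; simp
    · rw [Nat.choose_eq_zero_of_lt (show X - u < v by omega)]
      by_cases hv : X < v
      · rw [Nat.choose_eq_zero_of_lt hv]; simp
      · rw [Nat.choose_eq_zero_of_lt (show X - v < u by omega)]; simp

/-- the number of ways to choose `k` elements below and `k` elements above -/
def H (L k j : ℕ) : ℕ := j.choose k * (L - j).choose k

theorem H_mid (L k : ℕ) (h : 2 * k ≤ L) :
    g L * H L k (L / 2) = L.choose (2 * k) * (g (2 * k) * g (L - 2 * k)) := by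
  have ha : k ≤ L / 2 := by omega
  set a := L / 2 with hadef
  have e1 : L.choose a * a.choose k = L.choose k * (L - k).choose (a - k) :=
    Nat.choose_mul ha
  have e2 : (L - k).choose (a - k) * (L - a).choose k =
      (L - k).choose k * (L - 2 * k).choose (a - k) := by
    have := choose_swap (L - k) (a - k) k
    rwa [show L - k - (a - k) = L - a by omega, show L - k - k = L - 2 * k by omega] at this
  have e3 : L.choose (2 * k) * (2 * k).choose k = L.choose k * (L - k).choose k := by
    have := Nat.choose_mul (n := L) (k := 2 * k) (s := k) (by omega)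
    rwa [show 2 * k - k = k by omega] at this
  have e4 : g (2 * k) = (2 * k).choose k := by
    unfold g; rw [Nat.mul_div_cancel_left k (by norm_num)]
  have e5 : g (L - 2 * k) = (L - 2 * k).choose (a - k) := by
    unfold g; congr 1; omega
  unfold H
  rw [show g L = L.choose a from rfl, e4, e5]
  calc L.choose a * (a.choose k * (L - a).choose k)
      = (L.choose a * a.choose k) * (L - a).choose k := by ring
    _ = L.choose k * ((L - k).choose (a - k) * (L - a).choose k) := by rw [e1]; ring
    _ = (L.choose k * (L - k).choose k) * (L - 2 * k).choose (a - k) := by rw [e2]; ring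
    _ = _ := by rw [← e3]; ring

theorem H_step {L k j : ℕ} (h : 2 * j + 1 ≤ L) : H L k j ≤ H L k (j + 1) := by
  unfold H
  by_cases hk : j < k
  · rw [Nat.choose_eq_zero_of_lt hk]; simp
  push Not at hk
  have e1' : (j + 1).choose k * (j + 1 - k) = (j + 1) * j.choose k := by
    have := Nat.choose_mul_succ_eq j k
    rw [mul_comm (j + 1)]
    exact this.symm
  have e2 : (L - j).choose k * (L - j - k) = (L - j - 1).choose k * (L - j) := by
    have := Nat.choose_mul_succ_eq (L - j - 1) k
    rw [show L - j - 1 + 1 = L - j by omega] at this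
    exact this.symm
  have hL : L - (j + 1) = L - j - 1 := by omega
  rw [hL]
  set x := L - j with hx
  have hxj : j + 1 ≤ x := by omega
  have hpos : 0 < (j + 1) * (x - k) := by
    apply Nat.mul_pos (by omega); omega
  refine Nat.le_of_mul_le_mul_left ?_ hpos
  obtain ⟨d, hd⟩ : ∃ d, j = k + d := ⟨j - k, by omega⟩
  obtain ⟨c, hc⟩ : ∃ c, x = j + 1 + c := ⟨x - (j + 1), by omega⟩
  have hcoef : (j + 1 - k) * x ≤ (j + 1) * (x - k) := by
    have h1 : j + 1 - k = d + 1 := by omega
    have h2 : x - k = d + 1 + c := by omega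
    rw [h1, h2, hc, hd]
    nlinarith
  calc (j + 1) * (x - k) * (j.choose k * x.choose k)
      = ((j + 1) * j.choose k) * (x.choose k * (x - k)) := by ring
    _ = ((j + 1).choose k * (j + 1 - k)) * ((x - 1).choose k * x) := by rw [← e1', ← e2]
    _ = ((j + 1 - k) * x) * ((j + 1).choose k * (x - 1).choose k) := by ring
    _ ≤ ((j + 1) * (x - k)) * ((j + 1).choose k * (x - 1).choose k) :=
        Nat.mul_le_mul_right _ hcoef

theorem H_symm {L k j : ℕ} (h : j ≤ L) : H L k j = H L k (L - j) := by
  unfold H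
  rw [show L - (L - j) = j by omega, mul_comm]

theorem H_le {L k j : ℕ} (h : j ≤ L) : H L k j ≤ H L k (L / 2) := by
  have hlow : ∀ d j : ℕ, j + d = L / 2 → H L k j ≤ H L k (L / 2) := by
    intro d
    induction d with
    | zero => intro j hj; rw [Nat.add_zero] at hj; rw [hj]
    | succ d ih =>
      intro j hj
      exact (H_step (by omega)).trans (ih (j + 1) (by omega))
  by_cases h1 : j ≤ L / 2
  · exact hlow (L / 2 - j) j (by omega)
  · push Not at h1
    rw [H_symm h]
    exact hlow (L / 2 - (L - j)) (L - j) (by omega)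

theorem H_sq {L k j : ℕ} (h : 2 * k ≤ L) (hj : j ≤ L) :
    H L k j ^ 2 * ((2 * k + 1) * (L - 2 * k + 1)) ≤ 2 * (L + 1) * L.choose (2 * k) ^ 2 := by
  have h1 := H_mid L k h
  have hg : 0 < 4 ^ L := by positivity
  have u1 := g_upper (2 * k)
  have u2 := g_upper (L - 2 * k)
  have l1 := g_lower L
  have h2 : H L k j ^ 2 ≤ H L k (L / 2) ^ 2 := Nat.pow_le_pow_left (H_le hj) 2
  have hpow : 4 ^ L = 4 ^ (2 * k) * 4 ^ (L - 2 * k) := by
    rw [← pow_add]; congr 1; omega
  refine Nat.le_of_mul_le_mul_left ?_ hg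
  calc 4 ^ L * (H L k j ^ 2 * ((2 * k + 1) * (L - 2 * k + 1)))
      ≤ (2 * (L + 1) * g L ^ 2) * (H L k (L / 2) ^ 2 * ((2 * k + 1) * (L - 2 * k + 1))) :=
        Nat.mul_le_mul l1 (Nat.mul_le_mul_right _ h2)
    _ = 2 * (L + 1) * (g L * H L k (L / 2)) ^ 2 * ((2 * k + 1) * (L - 2 * k + 1)) := by ring
    _ = 2 * (L + 1) * L.choose (2 * k) ^ 2 * ((g (2 * k) ^ 2 * (2 * k + 1)) *
          (g (L - 2 * k) ^ 2 * (L - 2 * k + 1))) := by rw [h1]; ring
    _ ≤ 2 * (L + 1) * L.choose (2 * k) ^ 2 * (4 ^ (2 * k) * 4 ^ (L - 2 * k)) :=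
        Nat.mul_le_mul_left _ (Nat.mul_le_mul u1 u2)
    _ = _ := by rw [← hpow]; ring

theorem hockey (L a : ℕ) : ∑ j ∈ range (L + 1), j.choose a = (L + 1).choose (a + 1) := by
  induction L with
  | zero =>
    rcases a with _ | a
    · simp
    · simp [Nat.choose_eq_zero_of_lt (show 1 < a + 1 + 1 by omega)]
  | succ L ih => rw [sum_range_succ, ih, Nat.choose_succ_succ (L + 1) a, add_comm]

/-- positions of the `(a + 1)`-st element of an `(a + b + 1)`-element set -/
theorem sum_choose (L a b : ℕ) :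
    ∑ j ∈ range (L + 1), j.choose a * (L - j).choose b = (L + 1).choose (a + b + 1) := by
  induction L generalizing b with
  | zero =>
    simp only [zero_add, sum_range_one, Nat.sub_zero]
    rcases a with _ | a
    · rcases b with _ | b
      · simp
      · simp [Nat.choose_eq_zero_of_lt (show 1 < b + 1 + 1 by omega)]
    · simp [Nat.choose_eq_zero_of_lt (show 1 < a + 1 + b + 1 by omega)]
  | succ L ih =>
    rcases b with _ | b
    · simp only [Nat.choose_zero_right, mul_one, add_zero]
      exact hockey (L + 1) a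
    · rw [sum_range_succ]
      have h0 : (L + 1 - (L + 1)).choose (b + 1) = 0 := by simp
      rw [h0, mul_zero, add_zero]
      have h1 : ∀ j ∈ range (L + 1), j.choose a * (L + 1 - j).choose (b + 1) =
          j.choose a * (L - j).choose b + j.choose a * (L - j).choose (b + 1) := by
        intro j hj
        rw [mem_range] at hj
        rw [show L + 1 - j = L - j + 1 by omega, Nat.choose_succ_succ, mul_add]
      rw [sum_congr rfl h1, sum_add_distrib, ih b, ih (b + 1), show a + (b + 1) + 1 = a + b + 1 + 1 by ring,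
        Nat.choose_succ_succ (L + 1) (a + b + 1)]

end Pool.Agent.X248.RS
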