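import Pool.Agent.X248.RS.Binom
import Pool.Agent.Y344.KD.Final

/-!
# The pairs of a random subset which halve it
-/

set_option autoImplicit false

namespace Pool.Agent.X248.RS

open Finset Pool.Agent.H189R2.Lev Pool.Agent.H189R2.Iid Pool.Agent.Y344.KD

variable {n : ℕ}

open Classical in
/-- the number of pairs of elements of `I` with exactly `k` elements of `I` below their line -/
noncomputable def cntI (P : Fin n → ℝ × ℝ) (k : ℕ) (I : Finset (Fin n)) : ℕ :=
  ((T P).filter (fun q => q.1 ∈ I ∧ q.2 ∈ I ∧ (lowSet P q ∩ I).card = k)).card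

open Classical in
theorem low_card {P : Fin n → ℝ × ℝ} {q : Fin n × Fin n} (hq : q ∈ T P) :
    q.1 ∉ lowSet P q ∧ q.2 ∉ lowSet P q ∧ q.1 ≠ q.2 ∧ lev P q + 2 ≤ n := by
  rw [mem_T] at hq
  have h1 : q.1 ∉ lowSet P q := by
    unfold lowSet
    rw [mem_filter]
    exact fun h => fst_notMem_low _ _ h.2
  have h2 : q.2 ∉ lowSet P q := by
    unfold lowSet
    rw [mem_filter]
    exact fun h => snd_notMem_low hq h.2
  have h3 : q.1 ≠ q.2 := fun h => by rw [h] at hq; exact lt_irrefl _ hq
  refine ⟨h1, h2, h3, ?_⟩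
  rw [lev_eq]
  have h4 : (insert q.1 (insert q.2 (lowSet P q))).card = (lowSet P q).card + 2 := by
    rw [card_insert_of_notMem, card_insert_of_notMem h2]
    rw [mem_insert]
    push Not
    exact ⟨h3, h1⟩
  have h5 := card_le_univ (insert q.1 (insert q.2 (lowSet P q)))
  rw [h4, Fintype.card_fin] at h5
  exact h5

open Classical in
theorem count_q {P : Fin n → ℝ × ℝ} {q : Fin n × Fin n} (hq : q ∈ T P) (k m : ℕ) :
    ((powersetCard m (univ : Finset (Fin n))).filter
      (fun I => q.1 ∈ I ∧ q.2 ∈ I ∧ (lowSet P q ∩ I).card = k)).card ≤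
      (lev P q).choose k * (n - 2 - lev P q).choose (m - 2 - k) := by
  obtain ⟨h1, h2, h3, h4⟩ := low_card hq
  set U : Finset (Fin n) := (insert q.1 (insert q.2 (lowSet P q)))ᶜ with hU
  have hUc : U.card = n - 2 - lev P q := by
    rw [hU, card_compl, card_insert_of_notMem, card_insert_of_notMem h2, Fintype.card_fin, lev_eq]
    · omega
    · rw [mem_insert]
      push Not
      exact ⟨h3, h1⟩
  have hlev : (lowSet P q).card = lev P q := rfl
  rw [← hUc, ← hlev, ← card_powersetCard, ← card_powersetCard, ← card_product]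
  apply card_le_card_of_injOn (fun I => (lowSet P q ∩ I, U ∩ I))
  · intro I hI
    simp only [coe_filter, mem_powersetCard, subset_univ, true_and, Set.mem_ofPred_eq] at hI
    obtain ⟨hm, i1, i2, hk⟩ := hI
    simp only [coe_product, Set.mem_prod, mem_coe, mem_powersetCard]
    refine ⟨⟨inter_subset_left, hk⟩, inter_subset_left, ?_⟩
    have hI : I = insert q.1 (insert q.2 ((lowSet P q ∩ I) ∪ (U ∩ I))) := by
      ext l
      simp only [mem_insert, mem_union, mem_inter, hU, mem_compl]
      constructor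
      · intro hl
        by_cases e1 : l = q.1
        · exact Or.inl e1
        by_cases e2 : l = q.2
        · exact Or.inr (Or.inl e2)
        by_cases e3 : l ∈ lowSet P q
        · exact Or.inr (Or.inr (Or.inl ⟨e3, hl⟩))
        · refine Or.inr (Or.inr (Or.inr ⟨?_, hl⟩))
          push Not
          exact ⟨e1, e2, e3⟩
      · rintro (rfl | rfl | h | h)
        · exact i1
        · exact i2
        · exact h.2
        · exact h.2
    have hd : Disjoint (lowSet P q ∩ I) (U ∩ I) := by
      rw [disjoint_left]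
      intro l hl hl'
      rw [mem_inter] at hl hl'
      rw [hU, mem_compl, mem_insert, mem_insert] at hl'
      exact hl'.1 (Or.inr (Or.inr hl.1))
    have hn2 : q.2 ∉ (lowSet P q ∩ I) ∪ (U ∩ I) := by
      rw [mem_union, mem_inter, mem_inter]
      rintro (h | h)
      · exact h2 h.1
      · rw [hU, mem_compl, mem_insert, mem_insert] at h
        exact h.1 (Or.inr (Or.inl rfl))
    have hn1 : q.1 ∉ insert q.2 ((lowSet P q ∩ I) ∪ (U ∩ I)) := by
      rw [mem_insert, mem_union, mem_inter, mem_inter]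
      rintro (h | h | h)
      · exact h3 h
      · exact h1 h.1
      · rw [hU, mem_compl, mem_insert, mem_insert] at h
        exact h.1 (Or.inl rfl)
    have hc : I.card = (lowSet P q ∩ I).card + (U ∩ I).card + 2 := by
      conv_lhs => rw [hI]
      rw [card_insert_of_notMem hn1, card_insert_of_notMem hn2, card_union_of_disjoint hd]
    omega
  · intro I hI I' hI' heq
    simp only [coe_filter, mem_powersetCard, subset_univ, true_and, Set.mem_ofPred_eq] at hI hI'
    simp only [Prod.mk.injEq] at heq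
    ext l
    by_cases e1 : l = q.1
    · subst e1; exact ⟨fun _ => hI'.2.1, fun _ => hI.2.1⟩
    by_cases e2 : l = q.2
    · subst e2; exact ⟨fun _ => hI'.2.2.1, fun _ => hI.2.2.1⟩
    by_cases e3 : l ∈ lowSet P q
    · have := congrArg (fun s => l ∈ s) heq.1
      simp only [mem_inter, e3, true_and, eq_iff_iff] at this
      exact this
    · have hlU : l ∈ U := by
        rw [hU, mem_compl, mem_insert, mem_insert]
        push Not
        exact ⟨e1, e2, e3⟩
      have := congrArg (fun s => l ∈ s) heq.2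
      simp only [mem_inter, hlU, true_and, eq_iff_iff] at this
      exact this

theorem sum_cntI (P : Fin n → ℝ × ℝ) (k m : ℕ) :
    ∑ I ∈ powersetCard m (univ : Finset (Fin n)), cntI P k I ≤
      ∑ q ∈ T P, (lev P q).choose k * (n - 2 - lev P q).choose (m - 2 - k) := by
  classical
  have h1 : ∑ I ∈ powersetCard m (univ : Finset (Fin n)), cntI P k I =
      ∑ q ∈ T P, ((powersetCard m (univ : Finset (Fin n))).filter
      (fun I => q.1 ∈ I ∧ q.2 ∈ I ∧ (lowSet P q ∩ I).card = k)).card := by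
    unfold cntI
    simp only [card_filter]
    rw [sum_comm]
  rw [h1]
  exact sum_le_sum fun q hq => count_q hq k m

/-- **The mean number of halving pairs of a random `2 k + 2`-element subset.** -/
theorem mean_bound {P : Fin n → ℝ × ℝ} (hP : GP P) {k : ℕ} (hn : 2 * k + 2 ≤ n) :
    (∑ I ∈ powersetCard (2 * k + 2) (univ : Finset (Fin n)), cntI P k I : ℝ) ≤
      (n.choose (2 * k + 2) : ℝ) * (140 *
        (((2 * k + 2 : ℕ) : ℝ) ^ 7 * (n / (n - (2 * k + 2) + 1))) ^ (1 / 6 : ℝ)) := by
  classical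
  set L := n - 2 with hL
  have hL2 : 2 * k ≤ L := by omega
  set c : ℝ := ((L + 1).choose (2 * k + 1) : ℝ) with hc
  have hc0 : 0 < c := by
    rw [hc]; exact_mod_cast Nat.choose_pos (by omega)
  set w : ℕ → ℝ := fun j => if j ≤ L then (H L k j : ℝ) / c else 0 with hw
  have hw0 : ∀ j, 0 ≤ w j := by
    intro j
    simp only [hw]
    split_ifs
    · positivity
    · exact le_rfl
  have hn0 : (2 : ℝ) ≤ n := by
    have : 2 ≤ n := by omega
    exact_mod_cast this
  have hk0 : (0 : ℝ) ≤ k := Nat.cast_nonneg k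
  have hnk : (2 * k + 2 : ℝ) ≤ n := by exact_mod_cast hn
  have hLn : (L : ℝ) = n - 2 := by rw [hL]; push_cast [show 2 ≤ n by omega]; ring
  set A : ℝ := 2 * (2 * k + 1) / ((n - 1) * (n - (2 * k + 2) + 1)) with hA
  have hd : 0 < (n - 1 : ℝ) * (n - (2 * k + 2) + 1) := by
    apply mul_pos <;> linarith
  have hA0 : 0 < A := by
    rw [hA]; positivity
  have hwM : ∀ j, w j ≤ Real.sqrt A := by
    intro j
    simp only [hw]
    split_ifs with hj
    · rw [div_le_iff₀ hc0, ← Real.sqrt_sq (show (0 : ℝ) ≤ H L k j by positivity)]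
      rw [← Real.sqrt_sq hc0.le, ← Real.sqrt_mul hA0.le]
      apply Real.sqrt_le_sqrt
      have h1 := H_sq hL2 hj
      have h1' : ((H L k j : ℝ)) ^ 2 * ((2 * k + 1) * (L - 2 * k + 1)) ≤
          2 * (L + 1) * (L.choose (2 * k) : ℝ) ^ 2 := by
        have := (Nat.cast_le (α := ℝ)).mpr h1
        push_cast [hL2] at this
        exact this
      have h2 := Nat.add_one_mul_choose_eq L (2 * k)
      have h2' : ((L : ℝ) + 1) * L.choose (2 * k) = c * (2 * k + 1) := by
        rw [hc]
        exact_mod_cast h2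
      have h3 : (0 : ℝ) < (L : ℝ) + 1 := by positivity
      have h4 : (0 : ℝ) < (2 * k + 1 : ℝ) := by positivity
      have h5 : ((H L k j : ℝ)) ^ 2 * (((2 * k + 1) * (L - 2 * k + 1)) * (L + 1)) ≤
          2 * (c * (2 * k + 1)) ^ 2 := by
        calc ((H L k j : ℝ)) ^ 2 * (((2 * k + 1) * (L - 2 * k + 1)) * (L + 1))
            = (((H L k j : ℝ)) ^ 2 * ((2 * k + 1) * (L - 2 * k + 1))) * (L + 1) := by ring
          _ ≤ (2 * (L + 1) * (L.choose (2 * k) : ℝ) ^ 2) * (L + 1) :=
              mul_le_mul_of_nonneg_right h1' h3.le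
          _ = 2 * (((L : ℝ) + 1) * L.choose (2 * k)) ^ 2 := by ring
          _ = _ := by rw [h2']
      have h6 : A * c ^ 2 = 2 * (2 * k + 1) * c ^ 2 / ((n - 1) * (n - (2 * k + 2) + 1)) := by
        rw [hA]; ring
      rw [h6, le_div_iff₀ hd]
      have h7 : ((n : ℝ) - 1) * (n - (2 * k + 2) + 1) = ((L : ℝ) - 2 * k + 1) * (L + 1) := by
        rw [hLn]; ring
      rw [h7]
      refine le_of_mul_le_mul_left ?_ h4
      calc (2 * k + 1 : ℝ) * ((H L k j : ℝ) ^ 2 * (((L : ℝ) - 2 * k + 1) * (L + 1)))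
          = (H L k j : ℝ) ^ 2 * (((2 * k + 1) * (L - 2 * k + 1)) * (L + 1)) := by ring
        _ ≤ 2 * (c * (2 * k + 1)) ^ 2 := h5
        _ = _ := by ring
    · exact Real.sqrt_nonneg _
  have hwsum : ∑ j ∈ range (n + 1), w j ≤ 2 := by
    have h1 : ∑ j ∈ range (n + 1), w j = ∑ j ∈ range (L + 1), w j := by
      symm
      apply sum_subset (range_subset_range.mpr (by omega))
      intro j _ hj
      rw [mem_range] at hj
      simp only [hw]
      rw [if_neg (by omega)]
    have h2 : ∑ j ∈ range (L + 1), w j = 1 := by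
      have h3 : ∀ j ∈ range (L + 1), w j = (H L k j : ℝ) / c := by
        intro j hj
        rw [mem_range] at hj
        simp only [hw]
        rw [if_pos (by omega)]
      rw [sum_congr rfl h3, ← sum_div, div_eq_one_iff_eq hc0.ne', hc, ← Nat.cast_sum]
      congr 1
      have := sum_choose L k k
      rw [show k + k + 1 = 2 * k + 1 by ring] at this
      exact this
    rw [h1, h2]; norm_num
  have hsq : 0 < Real.sqrt A := Real.sqrt_pos.mpr hA0
  have key := sum_below (J := n + 1) hP (by omega) hsq (fun j _ => hw0 j) (fun j _ => hwM j) hwsum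
  rw [EW_all P le_rfl] at key
  have h1 : (∑ I ∈ powersetCard (2 * k + 2) (univ : Finset (Fin n)), cntI P k I : ℝ) ≤
      c * ∑ q ∈ T P, w (lev P q) := by
    have h2 := sum_cntI P k (2 * k + 2)
    have h3 : (∑ I ∈ powersetCard (2 * k + 2) (univ : Finset (Fin n)), cntI P k I : ℝ) ≤
        ∑ q ∈ T P, ((H L k (lev P q) : ℕ) : ℝ) := by
      rw [← Nat.cast_sum, ← Nat.cast_sum]
      apply Nat.cast_le.mpr
      refine h2.trans (le_of_eq (sum_congr rfl fun q _ => ?_))
      unfold H
      rw [show 2 * k + 2 - 2 - k = k by omega]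
    refine h3.trans (le_of_eq ?_)
    rw [mul_sum]
    apply sum_congr rfl
    intro q hq
    obtain ⟨-, -, -, h4⟩ := low_card hq
    simp only [hw]
    rw [if_pos (by omega), mul_div_cancel₀ _ hc0.ne']
  refine h1.trans ?_
  have hcn : c * n = (n.choose (2 * k + 2) : ℝ) * (2 * k + 2) := by
    have h2 := Nat.add_one_mul_choose_eq (n - 1) (2 * k + 1)
    rw [show n - 1 + 1 = n by omega] at h2
    have h3 : L + 1 = n - 1 := by omega
    rw [hc, h3]
    have h4 : (n : ℝ) * (n - 1).choose (2 * k + 1) = n.choose (2 * k + 1 + 1) * (2 * k + 1 + 1) := by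
      exact_mod_cast h2
    rw [mul_comm, h4]
    push_cast
    ring
  have hB : ((n + 1 : ℕ) : ℝ) ^ (1 / 3 : ℝ) * (Real.sqrt A) ^ (1 / 3 : ℝ) ≤
      (9 * ((2 * k + 2 : ℝ) * (n / (n - (2 * k + 2) + 1)))) ^ (1 / 6 : ℝ) := by
    have h2 : Real.sqrt A = A ^ (1 / 2 : ℝ) := Real.sqrt_eq_rpow A
    have h3 : (((n + 1 : ℕ) : ℝ)) ^ (1 / 3 : ℝ) = ((((n + 1 : ℕ) : ℝ)) ^ 2) ^ (1 / 6 : ℝ) := by
      rw [← Real.rpow_natCast, ← Real.rpow_mul (by positivity)]
      norm_num
    rw [h2, ← Real.rpow_mul hA0.le, h3, show (1 / 2 : ℝ) * (1 / 3) = 1 / 6 by norm_num,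
      ← Real.mul_rpow (by positivity) hA0.le]
    apply Real.rpow_le_rpow (by positivity) _ (by norm_num)
    rw [hA]
    push_cast
    have hd2 : (0 : ℝ) < n - (2 * k + 2) + 1 := by linarith
    have hd3 : (0 : ℝ) < n - 1 := by linarith
    rw [show ((n : ℝ) + 1) ^ 2 * (2 * (2 * k + 1) / ((n - 1) * (n - (2 * k + 2) + 1))) =
      ((n + 1) ^ 2 * (2 * (2 * k + 1)) / (n - 1)) / (n - (2 * k + 2) + 1) by
        field_simp]
    rw [show (9 : ℝ) * ((2 * k + 2) * (n / (n - (2 * k + 2) + 1))) =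
      (9 * ((2 * k + 2) * n)) / (n - (2 * k + 2) + 1) by ring]
    apply div_le_div_of_nonneg_right _ hd2.le
    rw [div_le_iff₀ hd3]
    have h5 : ((n : ℝ) + 1) ^ 2 ≤ 9 / 2 * (n * (n - 1)) := by nlinarith
    calc ((n : ℝ) + 1) ^ 2 * (2 * (2 * k + 1)) ≤ 9 / 2 * (n * (n - 1)) * (2 * (2 * k + 2)) := by
          apply mul_le_mul h5 (by linarith) (by positivity)
          nlinarith
      _ = _ := by ring
  calc c * ∑ q ∈ T P, w (lev P q)
      ≤ c * (90 * n * (((n + 1 : ℕ) : ℝ) ^ (1 / 3 : ℝ) * (Real.sqrt A) ^ (1 / 3 : ℝ))) :=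
        mul_le_mul_of_nonneg_left key hc0.le
    _ = (c * n) * 90 * (((n + 1 : ℕ) : ℝ) ^ (1 / 3 : ℝ) * (Real.sqrt A) ^ (1 / 3 : ℝ)) := by ring
    _ ≤ (c * n) * 90 * (9 * ((2 * k + 2 : ℝ) * (n / (n - (2 * k + 2) + 1)))) ^ (1 / 6 : ℝ) :=
        mul_le_mul_of_nonneg_left hB (by positivity)
    _ ≤ _ := by
        rw [hcn, mul_assoc, mul_assoc]
        apply mul_le_mul_of_nonneg_left _ (by positivity)
        set m : ℝ := 2 * k + 2 with hm
        have hm0 : 0 < m := by rw [hm]; positivity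
        have hd2 : (0 : ℝ) < n - m + 1 := by linarith
        set x : ℝ := n / (n - m + 1) with hx
        have hx0 : 0 ≤ x := by rw [hx]; positivity
        have e1 : ((2 * k + 2 : ℕ) : ℝ) = m := by rw [hm]; push_cast; ring
        rw [e1]
        have e2 : (m ^ 7 * x) ^ (1 / 6 : ℝ) = m * (m * x) ^ (1 / 6 : ℝ) := by
          rw [show m ^ 7 * x = m ^ 6 * (m * x) by ring, Real.mul_rpow (by positivity) (by positivity)]
          congr 1
          rw [← Real.rpow_natCast, ← Real.rpow_mul hm0.le]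
          norm_num
        rw [e2, Real.mul_rpow (by norm_num) (by positivity)]
        have e3 : (9 : ℝ) ^ (1 / 6 : ℝ) ≤ 3 / 2 := by
          have : ((9 : ℝ) ^ (1 / 6 : ℝ)) ^ 6 ≤ (3 / 2) ^ 6 := by
            rw [← Real.rpow_natCast, ← Real.rpow_mul (by norm_num)]
            norm_num
          exact le_of_pow_le_pow_left₀ (by norm_num) (by norm_num) this
        have e4 : 0 ≤ (m * x) ^ (1 / 6 : ℝ) := by positivity
        have e5 : 0 ≤ m * (m * x) ^ (1 / 6 : ℝ) := by positivity
        nlinarith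

end Pool.Agent.X248.RS
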