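import Pool.Agent.X248.RS.Geo
import Pool.Agent.Results.MP_a08d0a_co.IidLevel

/-!
# Bisectors and crossings of the dual lines
-/

set_option autoImplicit false

namespace Pool.Agent.X248.RS

open Finset Pool.Agent.H189R2.Lev Pool.Agent.H189R2.Iid
open KLev.Halving (Line IsBisector GeneralPosition line_eq)
open Pool.Agent.Results.MP_a08d0a_co.IidLevel (crossings sl ic)

variable {n : ℕ}

theorem bis_cross {pt : Fin n → ℝ × ℝ} (hinj : Function.Injective pt) {k : ℕ}
    (hn : n = 2 * k + 2) : {L | IsBisector (univ.image pt) L}.ncard ≤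
      (crossings (sl pt) (ic pt) k).ncard + 1 := by
  classical
  set R := univ.image pt with hR
  have hRc : R.card / 2 - 1 = k := by
    rw [hR, card_image_of_injective _ hinj, card_univ, Fintype.card_fin]; omega
  have hsub : {L | IsBisector R L} ⊆ (pl pt '' (crossings (sl pt) (ic pt) k)) ∪
      {L | IsBisector R L ∧ ∃ s, L = {p | p.1 = s}} := by
    intro L hL
    have hL0 := hL
    obtain ⟨a, b, c, hab, hLe, ⟨p, hp, q, hq, hpq, hpL, hqL⟩, h1, h2⟩ := hL
    by_cases hb : b = 0
    · right
      refine ⟨hL0, c / a, ?_⟩
      have ha : a ≠ 0 := by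
        rcases hab with h | h
        · exact h
        · exact absurd hb h
      rw [hLe]
      ext x
      simp only [Line, Set.mem_setOf_eq, hb, zero_mul, add_zero]
      rw [eq_div_iff ha, mul_comm]
    left
    have hne : p.1 ≠ q.1 := by
      intro h
      apply hpq
      rw [hLe] at hpL hqL
      have e1 : a * p.1 + b * p.2 = c := hpL
      have e2 : a * q.1 + b * q.2 = c := hqL
      have : b * p.2 = b * q.2 := by rw [h] at e1; linarith
      exact Prod.ext h (mul_left_cancel₀ hb this)
    obtain ⟨i, j, hlt, hne', hiL, hjL⟩ : ∃ i j : Fin n, i < j ∧ (pt i).1 ≠ (pt j).1 ∧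
        pt i ∈ L ∧ pt j ∈ L := by
      rw [hR, mem_image] at hp hq
      obtain ⟨i, -, rfl⟩ := hp
      obtain ⟨j, -, rfl⟩ := hq
      rcases lt_trichotomy i j with h | h | h
      · exact ⟨i, j, h, hne, hpL, hqL⟩
      · exact absurd (by rw [h]) hne
      · exact ⟨j, i, h, hne.symm, hqL, hpL⟩
    rw [hLe] at hiL hjL
    have e1 : a * (pt i).1 + b * (pt i).2 = c := hiL
    have e2 : a * (pt j).1 + b * (pt j).2 = c := hjL
    have hd : (pt i).1 - (pt j).1 ≠ 0 := sub_ne_zero.mpr hne'
    have hX : ((pt j).2 - (pt i).2) / ((pt i).1 - (pt j).1) = a / b := by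
      rw [div_eq_div_iff hd hb]
      linarith
    have hY : (pt i).1 * (a / b) + (pt i).2 = c / b := by
      rw [eq_div_iff hb]
      field_simp
      linarith
    refine ⟨(i, j), ⟨hlt, hne', ?_⟩, ?_⟩
    · have hcr : cr (sl pt) (ic pt) i j = a / b := hX
      have hht : ∀ l, ht (sl pt) (ic pt) l (a / b) = (pt l).1 * (a / b) + (pt l).2 := fun l => rfl
      simp only [hcr, hht, hY]
      have hset : {l | (pt l).1 * (a / b) + (pt l).2 < c / b} =
          ((univ.filter (fun l => (pt l).1 * (a / b) + (pt l).2 < c / b) : Finset _) :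
            Set (Fin n)) := by
        ext l; simp
      rw [hset, Set.ncard_coe_finset]
      rcases lt_or_gt_of_ne hb with h | h
      · rw [← hRc, ← h2, hR, filter_image, card_image_of_injective _ hinj]
        congr 1
        apply filter_congr
        intro l _
        rw [show (pt l).1 * (a / b) + (pt l).2 = (a * (pt l).1 + b * (pt l).2) / b by field_simp,
          div_lt_div_right_of_neg h]
      · rw [← hRc, ← h1, hR, filter_image, card_image_of_injective _ hinj]
        congr 1
        apply filter_congr
        intro l _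
        rw [show (pt l).1 * (a / b) + (pt l).2 = (a * (pt l).1 + b * (pt l).2) / b by field_simp,
          div_lt_div_iff_of_pos_right h]
    · rw [hLe]
      unfold pl
      simp only
      rw [hX, hY]
      ext x
      simp only [Line, Set.mem_setOf_eq]
      rw [eq_div_iff hb]
      constructor
      · intro h
        rw [← h]
        field_simp
      · intro h
        rw [← h]
        field_simp
  have hfin := (Set.toFinite (crossings (sl pt) (ic pt) k)).image (pl pt)
  have hfin2 := (vertical_sub R).finite
  refine (Set.ncard_le_ncard hsub (hfin.union hfin2)).trans ((Set.ncard_union_le _ _).trans ?_)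
  apply Nat.add_le_add
  · exact Set.ncard_image_le (Set.toFinite _)
  · exact (Set.ncard_le_one hfin2).mpr (fun a ha b hb => vertical_sub R ha hb)

end Pool.Agent.X248.RS
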