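import Pool.Agent.X248.RS.Count
import Pool.Agent.KLev.Halving

/-!
# Bisectors and halving pairs
-/

set_option autoImplicit false

namespace Pool.Agent.X248.RS

open Finset Pool.Agent.H189R2.Lev Pool.Agent.H189R2.Iid Pool.Agent.Y344.KD
open KLev.Halving (Line IsBisector GeneralPosition line_eq)

variable {n : ℕ}

/-- `P` has the same points below its pairs as the points `pt` -/
def Same (pt P : Fin n → ℝ × ℝ) : Prop :=
  ∀ i j, (pt j).1 < (pt i).1 → (P j).1 < (P i).1 ∧ ∀ l, (P l ∈ low (P i) (P j) ↔
    (pt l).1 * ((pt j).2 - (pt i).2) / ((pt i).1 - (pt j).1) + (pt l).2 <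
      (pt i).1 * ((pt j).2 - (pt i).2) / ((pt i).1 - (pt j).1) + (pt i).2)

theorem same_self (P : Fin n → ℝ × ℝ) : Same P P := by
  intro i j h
  refine ⟨h, fun l => ?_⟩
  unfold low Y2 X2
  rw [Set.mem_setOf_eq, mul_div_assoc, mul_div_assoc]

/-- the vertical bisector -/
theorem vertical_unique {R : Finset (ℝ × ℝ)} {s t : ℝ} {k : ℕ}
    (hs : (R.filter (fun p => s < p.1)).card = k)
    (ht : (R.filter (fun p => t < p.1)).card = k)
    {p : ℝ × ℝ} (hp : p ∈ R) (hpt : p.1 = t) : ¬ s < t := by
  intro hst
  have hlt : (R.filter (fun p => t < p.1)).card < (R.filter (fun p => s < p.1)).card := by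
    apply card_lt_card
    rw [Finset.ssubset_iff_of_subset]
    · exact ⟨p, mem_filter.mpr ⟨hp, by rw [hpt]; exact hst⟩, fun h => by
        rw [mem_filter, hpt] at h
        exact lt_irrefl _ h.2⟩
    · intro x hx
      rw [mem_filter] at hx ⊢
      exact ⟨hx.1, hst.trans hx.2⟩
  omega

theorem vertical_sub (R : Finset (ℝ × ℝ)) :
    {L | IsBisector R L ∧ ∃ s, L = {p | p.1 = s}}.Subsingleton := by
  have key : ∀ L, (IsBisector R L ∧ ∃ s, L = {p : ℝ × ℝ | p.1 = s}) → ∃ s,
      L = {p : ℝ × ℝ | p.1 = s} ∧ (R.filter (fun p => s < p.1)).card = R.card / 2 - 1 ∧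
      ∃ p ∈ R, p.1 = s := by
    rintro L ⟨⟨a, b, c, hab, hL, ⟨p, hp, q, hq, hpq, hpL, hqL⟩, h1, h2⟩, s, hs⟩
    refine ⟨s, hs, ?_, p, hp, by rw [hs] at hpL; exact hpL⟩
    have hb : b = 0 := by
      by_contra hb
      have h3 : ((s : ℝ), (c - a * s) / b) ∈ L := by
        rw [hL]
        show a * s + b * ((c - a * s) / b) = c
        field_simp
        ring
      have h4 : ((s + 1 : ℝ), (c - a * (s + 1)) / b) ∈ L := by
        rw [hL]
        show a * (s + 1) + b * ((c - a * (s + 1)) / b) = c
        field_simp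
        ring
      rw [hs] at h4
      have : s + 1 = s := h4
      linarith
    have ha : a ≠ 0 := by
      rcases hab with h | h
      · exact h
      · exact absurd hb h
    have hc : c = a * s := by
      have h3 : ((s : ℝ), (0 : ℝ)) ∈ L := by rw [hs]; rfl
      rw [hL] at h3
      have : a * s + b * 0 = c := h3
      linarith
    subst hb
    rcases lt_or_gt_of_ne ha with h | h
    · rw [← h1]
      congr 1
      apply filter_congr
      intro x _
      rw [hc]
      constructor
      · intro hx; nlinarith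
      · intro hx
        by_contra hcon
        push Not at hcon
        nlinarith
    · rw [← h2]
      congr 1
      apply filter_congr
      intro x _
      rw [hc]
      constructor
      · intro hx; nlinarith
      · intro hx
        by_contra hcon
        push Not at hcon
        nlinarith
  intro L hL L' hL'
  obtain ⟨s, e1, e2, p, hp, hps⟩ := key L hL
  obtain ⟨t, e3, e4, q, hq, hqt⟩ := key L' hL'
  rcases lt_trichotomy s t with h | h | h
  · exact absurd h (vertical_unique e2 e4 hq hqt)
  · rw [e1, e3, h]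
  · exact absurd h (vertical_unique e4 e2 hp hps)

/-- the line of a pair -/
noncomputable def pl (pt : Fin n → ℝ × ℝ) (q : Fin n × Fin n) : Set (ℝ × ℝ) :=
  Line (((pt q.2).2 - (pt q.1).2) / ((pt q.1).1 - (pt q.2).1)) 1
    ((pt q.1).1 * (((pt q.2).2 - (pt q.1).2) / ((pt q.1).1 - (pt q.2).1)) + (pt q.1).2)

theorem bis_le {pt P : Fin n → ℝ × ℝ} (hinj : Function.Injective pt) (hS : Same pt P)
    {k : ℕ} {I : Finset (Fin n)} (hI : I.card = 2 * k + 2) {R : Finset (ℝ × ℝ)}
    (hR : R = I.map ⟨pt, hinj⟩) : {L | IsBisector R L}.ncard ≤ cntI P k I + 1 := by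
  classical
  have hRc : R.card / 2 - 1 = k := by
    rw [hR, card_map, hI]; omega
  have hsub : {L | IsBisector R L} ⊆ (pl pt '' (((T P).filter (fun q => q.1 ∈ I ∧ q.2 ∈ I ∧
      (lowSet P q ∩ I).card = k) : Finset _) : Set (Fin n × Fin n))) ∪
      {L | IsBisector R L ∧ ∃ s, L = {p | p.1 = s}} := by
    intro L hL
    have hL0 := hL
    obtain ⟨a, b, c, hab, hLe, ⟨p, hp, q, hq, hpq, hpL, hqL⟩, h1, h2⟩ := hL
    by_cases hb : b = 0
    · right
      refine ⟨hL0, c / a, ?_⟩
      have ha : a ≠ 0 := by
        rcases hab with h | h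
        · exact h
        · exact absurd hb h
      rw [hLe]
      ext x
      simp only [Line, Set.mem_setOf_eq, hb, zero_mul, add_zero]
      rw [eq_div_iff ha, mul_comm]
    left
    have hne : p.1 ≠ q.1 := by
      intro h
      apply hpq
      rw [hLe] at hpL hqL
      have e1 : a * p.1 + b * p.2 = c := hpL
      have e2 : a * q.1 + b * q.2 = c := hqL
      have : b * p.2 = b * q.2 := by rw [h] at e1; linarith
      exact Prod.ext h (mul_left_cancel₀ hb this)
    -- order the two points
    obtain ⟨i, j, hiI, hjI, hlt, hiL, hjL⟩ : ∃ i j : Fin n, i ∈ I ∧ j ∈ I ∧ (pt j).1 < (pt i).1 ∧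
        pt i ∈ L ∧ pt j ∈ L := by
      rw [hR, mem_map] at hp hq
      obtain ⟨i, hi, rfl⟩ := hp
      obtain ⟨j, hj, rfl⟩ := hq
      simp only [Function.Embedding.coeFn_mk] at hne hpL hqL
      rcases lt_or_gt_of_ne hne with h | h
      · exact ⟨j, i, hj, hi, h, hqL, hpL⟩
      · exact ⟨i, j, hi, hj, h, hpL, hqL⟩
    rw [hLe] at hiL hjL
    have e1 : a * (pt i).1 + b * (pt i).2 = c := hiL
    have e2 : a * (pt j).1 + b * (pt j).2 = c := hjL
    have hd : (pt i).1 - (pt j).1 ≠ 0 := by linarith
    have hX : ((pt j).2 - (pt i).2) / ((pt i).1 - (pt j).1) = a / b := by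
      rw [div_eq_div_iff hd hb]
      linarith
    have hY : (pt i).1 * (a / b) + (pt i).2 = c / b := by
      rw [eq_div_iff hb]
      field_simp
      linarith
    refine ⟨(i, j), ?_, ?_⟩
    · rw [mem_coe, mem_filter, mem_T]
      obtain ⟨s1, s2⟩ := hS i j hlt
      refine ⟨s1, hiI, hjI, ?_⟩
      have hmem : ∀ l, l ∈ lowSet P (i, j) ∩ I ↔ l ∈ I ∧ (pt l).1 * (a / b) + (pt l).2 < c / b := by
        intro l
        rw [mem_inter]
        unfold lowSet
        rw [mem_filter]
        simp only [mem_univ, true_and]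
        rw [s2 l, mul_div_assoc, mul_div_assoc, hX, hY, and_comm]
      have hset : lowSet P (i, j) ∩ I = I.filter (fun l => (pt l).1 * (a / b) + (pt l).2 < c / b) := by
        ext l
        rw [hmem l, mem_filter]
      rw [hset]
      rcases lt_or_gt_of_ne hb with h | h
      · rw [← hRc, ← h2, hR, filter_map, card_map]
        congr 1
        apply filter_congr
        intro l _
        simp only [Function.comp_apply, Function.Embedding.coeFn_mk]
        rw [show (pt l).1 * (a / b) + (pt l).2 = (a * (pt l).1 + b * (pt l).2) / b by field_simp,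
          div_lt_div_right_of_neg h]
      · rw [← hRc, ← h1, hR, filter_map, card_map]
        congr 1
        apply filter_congr
        intro l _
        simp only [Function.comp_apply, Function.Embedding.coeFn_mk]
        rw [show (pt l).1 * (a / b) + (pt l).2 = (a * (pt l).1 + b * (pt l).2) / b by field_simp,
          div_lt_div_iff_of_pos_right h]
    · rw [hLe]
      unfold pl
      simp only
      rw [hX, hY]
      ext x
      simp only [Line, Set.mem_setOf_eq]
      rw [eq_div_iff hb]
      constructor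
      · intro h
        rw [← h]
        field_simp
      · intro h
        rw [← h]
        field_simp
  have hfin : (pl pt '' (((T P).filter (fun q => q.1 ∈ I ∧ q.2 ∈ I ∧
      (lowSet P q ∩ I).card = k) : Finset _) : Set (Fin n × Fin n))).Finite :=
    (Finset.finite_toSet _).image _
  have hfin2 := (vertical_sub R).finite
  refine (Set.ncard_le_ncard hsub (hfin.union hfin2)).trans ((Set.ncard_union_le _ _).trans ?_)
  apply Nat.add_le_add
  · refine (Set.ncard_image_le (Finset.finite_toSet _)).trans ?_
    rw [Set.ncard_coe_finset]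
    exact le_rfl
  · exact (Set.ncard_le_one hfin2).mpr (fun a ha b hb => vertical_sub R ha hb)

end Pool.Agent.X248.RS
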